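import Pool.Agent.H11.NY.Targets

/-!
# Module GK of the board ny_modules
-/

set_option autoImplicit false

open Equiv (Perm)

namespace Pool.Agent.H74.NY.GK

open Pool.Agent.H11.NY

/-- the centralizer of an image is not larger than the centralizer of the element -/
theorem card_centralizer_le {L Q : Type*} [Group L] [Finite L] [Group Q] (φ : L →* Q)
    (hφ : Function.Surjective φ) (a : L) :
    Nat.card (Subgroup.centralizer ({φ a} : Set Q)) ≤
      Nat.card (Subgroup.centralizer ({a} : Set L)) := by
  classical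
  have : Finite Q := Finite.of_surjective φ hφ
  set Z : Subgroup Q := Subgroup.centralizer ({φ a} : Set Q) with hZ
  set X : Subgroup L := Z.comap φ with hX
  have hidx : X.index = Z.index := Subgroup.index_comap_of_surjective Z hφ
  have h1 : Nat.card X * X.index = Nat.card L := Subgroup.card_mul_index X
  have h2 : Nat.card Z * Z.index = Nat.card Q := Subgroup.card_mul_index Z
  have h3 : Nat.card φ.ker * φ.ker.index = Nat.card L := Subgroup.card_mul_index φ.ker
  have h4 : φ.ker.index = Nat.card Q := by
    rw [Subgroup.index_ker, MonoidHom.range_eq_top.mpr hφ]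
    exact Nat.card_congr Subgroup.topEquiv.toEquiv
  have hpos : 0 < Z.index := Nat.pos_of_ne_zero Subgroup.index_ne_zero_of_finite
  have hcX : Nat.card X = Nat.card φ.ker * Nat.card Z := by
    have : Nat.card X * Z.index = Nat.card φ.ker * Nat.card Z * Z.index := by
      rw [← hidx, h1, ← h3, h4, ← h2, hidx, mul_assoc]
    exact Nat.eq_of_mul_eq_mul_right hpos this
  have hmem : ∀ x : X, (x : L) * a * (x : L)⁻¹ * a⁻¹ ∈ φ.ker := by
    intro x
    have hx : φ x * φ a = φ a * φ x := by
      have h : φ (x : L) ∈ Subgroup.centralizer ({φ a} : Set Q) := x.2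
      rwa [Subgroup.mem_centralizer_singleton_iff] at h
    rw [MonoidHom.mem_ker]
    simp only [map_mul, map_inv]
    rw [hx]
    group
  let F : X → φ.ker := fun x => ⟨(x : L) * a * (x : L)⁻¹ * a⁻¹, hmem x⟩
  have hFs : ∀ x : X, F (Function.invFun F (F x)) = F x := fun x =>
    Function.invFun_eq ⟨x, rfl⟩
  have hC : ∀ x : X, ((Function.invFun F (F x) : X) : L)⁻¹ * (x : L) ∈
      Subgroup.centralizer ({a} : Set L) := by
    intro x
    rw [Subgroup.mem_centralizer_singleton_iff]
    have h := congrArg (Subtype.val) (hFs x)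
    set y : L := ((Function.invFun F (F x) : X) : L) with hy
    have h' : y * a * y⁻¹ * a⁻¹ = (x : L) * a * (x : L)⁻¹ * a⁻¹ := h
    have h'' : y * a * y⁻¹ = (x : L) * a * (x : L)⁻¹ := mul_right_cancel h'
    calc y⁻¹ * (x : L) * a = y⁻¹ * ((x : L) * a * (x : L)⁻¹) * (x : L) := by group
      _ = y⁻¹ * (y * a * y⁻¹) * (x : L) := by rw [h'']
      _ = a * (y⁻¹ * (x : L)) := by group
  let g : X → φ.ker × (Subgroup.centralizer ({a} : Set L)) := fun x =>
    (F x, ⟨((Function.invFun F (F x) : X) : L)⁻¹ * (x : L), hC x⟩)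
  have hg : Function.Injective g := by
    intro x x' hxx
    have e1 : F x = F x' := congrArg Prod.fst hxx
    have e2 : ((Function.invFun F (F x) : X) : L)⁻¹ * (x : L) =
        ((Function.invFun F (F x') : X) : L)⁻¹ * (x' : L) :=
      congrArg (fun z => ((z.2 : Subgroup.centralizer ({a} : Set L)) : L)) hxx
    rw [e1] at e2
    exact Subtype.ext (mul_left_cancel e2)
  have hle : Nat.card X ≤ Nat.card φ.ker * Nat.card (Subgroup.centralizer ({a} : Set L)) := by
    rw [← Nat.card_prod]
    exact Nat.card_le_card_of_injective g hg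
  rw [hcX] at hle
  exact Nat.le_of_mul_le_mul_left hle Nat.card_pos

/-- cycle factors of an element of order dividing the prime `q` have length `q` -/
theorem card_support_of_mem {Ω : Type*} [Fintype Ω] [DecidableEq Ω] {a : Perm Ω} {q : ℕ}
    (hq : q.Prime) (ha : a ^ q = 1) {c : Perm Ω} (hc : c ∈ a.cycleFactorsFinset) :
    c.support.card = q := by
  have h1 : c.support.card ∈ a.cycleType := by
    rw [Equiv.Perm.cycleType_def]
    exact Multiset.mem_map.mpr ⟨c, hc, rfl⟩
  have h2 : c.support.card ∣ q :=
    (Equiv.Perm.dvd_of_mem_cycleType h1).trans (orderOf_dvd_of_pow_eq_one ha)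
  have h3 : 2 ≤ c.support.card := Equiv.Perm.two_le_of_mem_cycleType h1
  rcases (Nat.dvd_prime hq).mp h2 with h | h
  · omega
  · exact h

theorem mem_alt_of_mem {Ω : Type*} [Fintype Ω] [DecidableEq Ω] {a : Perm Ω} {q : ℕ}
    (hq : q.Prime) (hq3 : 3 ≤ q) (ha : a ^ q = 1) {c : Perm Ω}
    (hc : c ∈ a.cycleFactorsFinset) : c ∈ alternatingGroup Ω := by
  have hcyc : c.IsCycle := (Equiv.Perm.mem_cycleFactorsFinset_iff.mp hc).1
  have hodd : Odd q := hq.odd_of_ne_two (by omega)
  rw [Equiv.Perm.mem_alternatingGroup, hcyc.sign, card_support_of_mem hq ha hc, hodd.neg_one_pow,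
    neg_neg]

theorem card_support_eq {Ω : Type*} [Fintype Ω] [DecidableEq Ω] {a : Perm Ω} {q : ℕ}
    (hq : q.Prime) (ha : a ^ q = 1) : a.support.card = q * a.cycleFactorsFinset.card := by
  rw [← Equiv.Perm.sum_cycleType, Equiv.Perm.cycleType_def]
  have : Multiset.map (Finset.card ∘ Equiv.Perm.support) a.cycleFactorsFinset.val =
      Multiset.map (fun _ => q) a.cycleFactorsFinset.val := by
    apply Multiset.map_congr rfl
    intro c hc
    exact card_support_of_mem hq ha hc
  rw [this, Multiset.map_const', Multiset.sum_replicate, smul_eq_mul, mul_comm]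
  rfl

theorem pf_gk : T_GK := by
  intro L _ _ Ω _ _ φ q hφ hq hq3 a ha
  classical
  have hα : ((φ a : alternatingGroup Ω) : Perm Ω) ^ q = 1 := by
    rw [← Subgroup.coe_pow, ← map_pow, ha, map_one, Subgroup.coe_one]
  rw [card_support_eq hq hα]
  apply Nat.mul_le_mul_left
  refine le_trans ?_ (card_centralizer_le φ hφ a)
  have hev : ∀ c : ((φ a : alternatingGroup Ω) : Perm Ω).cycleFactorsFinset,
      (c : Perm Ω) ∈ alternatingGroup Ω := fun c => mem_alt_of_mem hq hq3 hα c.2
  have hcen : ∀ c : ((φ a : alternatingGroup Ω) : Perm Ω).cycleFactorsFinset,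
      (⟨(c : Perm Ω), hev c⟩ : alternatingGroup Ω) ∈
        Subgroup.centralizer ({φ a} : Set (alternatingGroup Ω)) := by
    intro c
    rw [Subgroup.mem_centralizer_singleton_iff]
    apply Subtype.ext
    exact (Equiv.Perm.self_mem_cycle_factors_commute c.2).eq
  let f : ((φ a : alternatingGroup Ω) : Perm Ω).cycleFactorsFinset →
      Subgroup.centralizer ({φ a} : Set (alternatingGroup Ω)) := fun c => ⟨_, hcen c⟩
  have hf : Function.Injective f := by
    intro c c' hcc
    apply Subtype.ext
    exact congrArg (fun z : Subgroup.centralizer ({φ a} : Set (alternatingGroup Ω)) =>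
      ((z : alternatingGroup Ω) : Perm Ω)) hcc
  have := Nat.card_le_card_of_injective f hf
  rwa [Nat.card_eq_fintype_card, Fintype.card_coe] at this

end Pool.Agent.H74.NY.GK
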