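import Pool.Agent.H11.NY.Targets

/-!
# Module I3b of the board ny_modules
-/

set_option autoImplicit false

namespace Pool.Agent.H74.NY.I3b

open Pool.Agent.H11.NY

section

variable {H : Type} [Group H] [Finite H]

/-- the hypothesis on the chief factors below `J` -/
def Hyp (J : Subgroup H) : Prop :=
  ∀ ℓ : ℕ, ℓ.Prime → ∀ A B : Subgroup H, A.Normal → B.Normal → B < A → A ≤ J →
    IsPGroup ℓ A → (∀ M : Subgroup H, M.Normal → B ≤ M → M ≤ A → M = B ∨ M = A) →
    ∀ y ∈ J, ∀ x ∈ A, y * x * y⁻¹ * x⁻¹ ∈ B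

/-- an element whose order is prime to `ℓ` centralises the normal `ℓ`-subgroups -/
theorem coprime_centralises {J : Subgroup H} (hyp : Hyp J) {l : ℕ} (hl : l.Prime) :
    ∀ n : ℕ, ∀ A : Subgroup H, Nat.card A = n → A.Normal → A ≤ J → IsPGroup l A →
      ∀ y ∈ J, ∀ m : ℕ, Nat.Coprime m l → y ^ m = 1 → ∀ x ∈ A, y * x * y⁻¹ = x := by
  intro n
  induction n using Nat.strong_induction_on with
  | _ n ih =>
    intro A hn hA hAJ hpA y hy m hm hym x hx
    by_cases hbot : A = ⊥
    · subst hbot
      rw [Subgroup.mem_bot] at hx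
      subst hx; simp
    · -- a maximal normal subgroup properly contained in `A`
      have hfin : (Set.Finite {B : Subgroup H | B.Normal ∧ B < A}) := Set.toFinite _
      have hne : ({B : Subgroup H | B.Normal ∧ B < A}).Nonempty :=
        ⟨⊥, inferInstance, bot_lt_iff_ne_bot.2 hbot⟩
      obtain ⟨B, ⟨hBn, hBA⟩, hBmax⟩ := hfin.exists_maximal hne
      have hchief : ∀ M : Subgroup H, M.Normal → B ≤ M → M ≤ A → M = B ∨ M = A := by
        intro M hM hBM hMA
        rcases eq_or_lt_of_le hMA with h | h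
        · exact Or.inr h
        · exact Or.inl (le_antisymm (hBmax (show M ∈ {B : Subgroup H | B.Normal ∧ B < A}
            from ⟨hM, h⟩) hBM) hBM)
      have hc := hyp l hl A B hA hBn hBA hAJ hpA hchief y hy x hx
      have hcard : Nat.card B < n := by
        rw [← hn]
        exact Set.Finite.card_lt_card (Set.toFinite _) (by exact_mod_cast hBA)
      have hBJ : B ≤ J := hBA.le.trans hAJ
      have hpB : IsPGroup l B := hpA.to_le hBA.le
      have hcent := ih (Nat.card B) hcard B rfl hBn hBJ hpB y hy m hm hym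
      obtain ⟨c, hcdef⟩ : ∃ c, c = y * x * y⁻¹ * x⁻¹ := ⟨_, rfl⟩
      rw [← hcdef] at hc
      have h1 : y * x * y⁻¹ = c * x := by rw [hcdef]; group
      have h2 : ∀ k : ℕ, y ^ k * x * (y ^ k)⁻¹ = c ^ k * x := by
        intro k
        induction k with
        | zero => simp
        | succ k ihk =>
          have hck : y * c ^ k * y⁻¹ = c ^ k := hcent _ (Subgroup.pow_mem _ hc k)
          calc y ^ (k + 1) * x * (y ^ (k + 1))⁻¹ = y * (y ^ k * x * (y ^ k)⁻¹) * y⁻¹ := by
                rw [pow_succ']; group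
            _ = (y * c ^ k * y⁻¹) * (y * x * y⁻¹) := by rw [ihk]; group
            _ = c ^ (k + 1) * x := by rw [hck, h1, pow_succ, mul_assoc]
      have h3 : c ^ m = 1 := by
        have h := h2 m
        rw [hym] at h
        have : x = c ^ m * x := by simpa using h
        exact (mul_eq_right.1 this.symm)
      obtain ⟨k, hk⟩ := hpB ⟨c, hc⟩
      have h4 : c ^ l ^ k = 1 := by
        have := congrArg (Subtype.val) hk
        simpa using this
      have h5 : orderOf c ∣ Nat.gcd m (l ^ k) :=
        Nat.dvd_gcd (orderOf_dvd_of_pow_eq_one h3) (orderOf_dvd_of_pow_eq_one h4)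
      have h6 : Nat.gcd m (l ^ k) = 1 := Nat.Coprime.pow_right k hm
      rw [h6, Nat.dvd_one, orderOf_eq_one_iff] at h5
      rw [h1, h5, one_mul]

/-- the `ℓ`-elements of a nilpotent normal subgroup form a normal subgroup -/
theorem exists_O {B : Subgroup H} (hB : B.Normal) (hn : Group.IsNilpotent B) {l : ℕ}
    (hl : l.Prime) : ∃ O : Subgroup H, O.Normal ∧ O ≤ B ∧ IsPGroup l O ∧
      ∀ x ∈ B, ∀ k : ℕ, x ^ l ^ k = 1 → x ∈ O := by
  haveI : Fact l.Prime := ⟨hl⟩
  obtain ⟨Q⟩ : Nonempty (Sylow l B) := inferInstance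
  have tf : Group.IsNilpotent B ↔ ∀ (p : ℕ), Fact p.Prime → ∀ P : Sylow p B,
      (P : Subgroup B).Normal := (Group.isNilpotent_of_finite_tfae (G := B)).out 0 3
  have hQn : (Q : Subgroup B).Normal := tf.1 hn l ⟨hl⟩ Q
  have hall : ∀ x : B, ∀ k : ℕ, x ^ l ^ k = 1 → x ∈ (Q : Subgroup B) := by
    intro x k hx
    have hz : IsPGroup l (Subgroup.zpowers x) := by
      rw [IsPGroup.iff_card]
      have : orderOf x ∣ l ^ k := orderOf_dvd_of_pow_eq_one hx
      obtain ⟨j, -, hj⟩ := (Nat.dvd_prime_pow hl).1 this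
      exact ⟨j, by rw [Nat.card_zpowers, hj]⟩
    obtain ⟨R, hR⟩ := hz.exists_le_sylow
    have huniq : R = Q := by
      haveI := Sylow.unique_of_normal Q hQn
      exact Subsingleton.elim _ _
    rw [← huniq]
    exact hR (Subgroup.mem_zpowers x)
  refine ⟨(Q : Subgroup B).map B.subtype, ?_, ?_, ?_, ?_⟩
  · constructor
    rintro _ ⟨q, hq, rfl⟩ h
    have hmem : h * (q : H) * h⁻¹ ∈ B := hB.conj_mem _ q.2 h
    obtain ⟨k, hk⟩ := Q.2 ⟨q, hq⟩
    have hk' : (q : H) ^ l ^ k = 1 := by
      have h1 := congrArg (Subtype.val) hk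
      have h2 := congrArg (Subtype.val) h1
      simpa using h2
    refine ⟨⟨h * (q : H) * h⁻¹, hmem⟩, hall _ k ?_, rfl⟩
    apply Subtype.ext
    rw [SubmonoidClass.coe_pow]
    change (h * (q : H) * h⁻¹) ^ l ^ k = 1
    rw [conj_pow, hk']; simp
  · rintro _ ⟨q, hq, rfl⟩
    exact q.2
  · exact Q.2.map _
  · intro x hx k hk
    refine ⟨⟨x, hx⟩, hall _ k ?_, rfl⟩
    apply Subtype.ext
    rw [SubmonoidClass.coe_pow]
    exact hk

/-- the elements of `N` whose image modulo the commutator subgroup has order prime to `s` -/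
theorem exists_B {N : Subgroup H} (hN : N.Normal) (hsol : Group.IsSolvable N) (hne : N ≠ ⊥) :
    ∃ (s : ℕ) (B : Subgroup H), s.Prime ∧ B.Normal ∧ B < N ∧
      ∀ x ∈ N, ∀ m : ℕ, Nat.Coprime m s → x ^ m = 1 → x ∈ B := by
  set C : Subgroup H := ⁅N, N⁆ with hC
  haveI hCn : C.Normal := Subgroup.commutator_normal N N
  have hlt : C < N := by
    refine lt_of_le_of_ne (Subgroup.commutator_le_left N N) ?_
    intro hEq
    haveI : Nontrivial N := (Subgroup.nontrivial_iff_ne_bot N).2 hne
    have h1 := Group.IsSolvable.commutator_lt_top_of_nontrivial N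
    have h2 : (commutator N).map N.subtype = (⊤ : Subgroup N).map N.subtype := by
      rw [Subgroup.map_subtype_commutator, ← MonoidHom.range_eq_map, Subgroup.range_subtype]
      exact hEq
    exact h1.ne (Subgroup.map_injective N.subtype_injective h2)
  let π : H →* H ⧸ C := QuotientGroup.mk' C
  have hπ : ∀ x : H, π x = 1 ↔ x ∈ C := fun x => QuotientGroup.eq_one_iff x
  have hcomm : ∀ x ∈ N, ∀ y ∈ N, Commute (π x) (π y) := by
    intro x hx y hy
    rw [← commutatorElement_eq_one_iff_commute, ← map_commutatorElement, hπ]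
    exact Subgroup.commutator_mem_commutator hx hy
  have hnt : N.map π ≠ ⊥ := by
    intro hb
    apply hlt.not_ge
    intro x hx
    rw [← hπ]
    have : π x ∈ N.map π := ⟨x, hx, rfl⟩
    rwa [hb, Subgroup.mem_bot] at this
  have hcard : Nat.card (N.map π) ≠ 1 := fun h => hnt (Subgroup.eq_bot_of_card_eq _ h)
  obtain ⟨s, hs, hsd⟩ := Nat.exists_prime_and_dvd hcard
  haveI : Fact s.Prime := ⟨hs⟩
  obtain ⟨z, hz⟩ := exists_prime_orderOf_dvd_card' (G := N.map π) s hsd
  let B : Subgroup H :=
    { carrier := {x | x ∈ N ∧ ∃ m : ℕ, Nat.Coprime m s ∧ (π x) ^ m = 1}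
      one_mem' := ⟨N.one_mem, 1, by simp, by simp⟩
      mul_mem' := by
        rintro x y ⟨hx, m, hm, hxm⟩ ⟨hy, m', hm', hym⟩
        refine ⟨N.mul_mem hx hy, m * m', hm.mul_left hm', ?_⟩
        rw [map_mul, (hcomm x hx y hy).mul_pow, pow_mul, hxm, mul_comm m m', pow_mul, hym]
        simp
      inv_mem' := by
        rintro x ⟨hx, m, hm, hxm⟩
        exact ⟨N.inv_mem hx, m, hm, by rw [map_inv, inv_pow, hxm, inv_one]⟩ }
  refine ⟨s, B, hs, ?_, ?_, ?_⟩
  · constructor
    rintro x ⟨hx, m, hm, hxm⟩ h
    refine ⟨hN.conj_mem x hx h, m, hm, ?_⟩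
    rw [map_mul, map_mul, map_inv, conj_pow, hxm]
    simp
  · refine lt_of_le_of_ne (fun x hx => hx.1) ?_
    intro hEq
    obtain ⟨x, hx, hxz⟩ := z.2
    have hxB : x ∈ B := by rw [hEq]; exact hx
    obtain ⟨-, m, hm, hxm⟩ := hxB
    have h1 : orderOf (z : H ⧸ C) = s := by rw [Subgroup.orderOf_coe]; exact hz
    have h2 : s ∣ m := by
      rw [← h1]
      apply orderOf_dvd_of_pow_eq_one
      rw [← hxz]; exact hxm
    exact hs.one_lt.ne' (Nat.Coprime.eq_one_of_dvd hm.symm h2)
  · intro x hx m hm hxm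
    exact ⟨hx, m, hm, by rw [← map_pow, hxm, map_one]⟩

theorem main {J : Subgroup H} (hsol : Group.IsSolvable J) (hyp : Hyp J) :
    ∀ n : ℕ, ∀ N : Subgroup H, Nat.card N = n → N.Normal → N ≤ J → Group.IsNilpotent N := by
  intro n
  induction n using Nat.strong_induction_on with
  | _ n ih =>
    intro N hn hN hNJ
    by_cases hbot : N = ⊥
    · subst hbot; infer_instance
    haveI hsN : Group.IsSolvable N :=
      Group.isSolvable_of_isSolvable_injective (Subgroup.inclusion_injective hNJ)
    obtain ⟨s, B, hs, hBn, hBN, hBel⟩ := exists_B hN hsN hbot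
    haveI hsF : Fact s.Prime := ⟨hs⟩
    have hcard : Nat.card B < n := by
      rw [← hn]
      exact Set.Finite.card_lt_card (Set.toFinite _) (by exact_mod_cast hBN)
    have hBnil : Group.IsNilpotent B := ih _ hcard B rfl hBn (hBN.le.trans hNJ)
    -- Sylow subgroups for the other primes
    have key : ∀ l : ℕ, l.Prime → l ≠ s → ∀ P : Sylow l N, ∃ O : Subgroup H, O.Normal ∧
        O ≤ J ∧ IsPGroup l O ∧ (P : Subgroup N) = O.subgroupOf N := by
      intro l hl hls P
      haveI : Fact l.Prime := ⟨hl⟩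
      obtain ⟨O, hOn, hOB, hOp, hO⟩ := exists_O hBn hBnil hl
      refine ⟨O, hOn, hOB.trans (hBN.le.trans hNJ), hOp, ?_⟩
      symm
      apply P.is_maximal'
      · exact hOp.comap_of_injective _ N.subtype_injective
      · intro x hx
        rw [Subgroup.mem_subgroupOf]
        obtain ⟨k, hk⟩ := P.2 ⟨x, hx⟩
        have hk' : (x : H) ^ l ^ k = 1 := by
          have h1 := congrArg (Subtype.val) hk
          have h2 := congrArg (Subtype.val) h1
          simpa using h2
        refine hO _ (hBel _ x.2 (l ^ k) ?_ hk') k hk'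
        exact Nat.Coprime.pow_left k ((Nat.coprime_primes hl hs).2 hls)
    have tf : Group.IsNilpotent N ↔ ∀ (p : ℕ), Fact p.Prime → ∀ P : Sylow p N,
        (P : Subgroup N).Normal := (Group.isNilpotent_of_finite_tfae (G := N)).out 0 3
    rw [tf]
    intro l hl P
    by_cases hls : l = s
    · subst hls
      rw [← Subgroup.normalizer_eq_top_iff, ← Subgroup.index_eq_one,
        Nat.eq_one_iff_not_exists_prime_dvd]
      intro p hp hdvd
      haveI : Fact p.Prime := ⟨hp⟩
      by_cases hpl : p = l
      · subst hpl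
        exact P.not_dvd_index (hdvd.trans (Subgroup.index_dvd_of_le Subgroup.le_normalizer))
      · obtain ⟨Q⟩ : Nonempty (Sylow p N) := inferInstance
        obtain ⟨O, hOn, hOJ, hOp, hO⟩ := key p hp hpl Q
        have hle : (Q : Subgroup N) ≤ Subgroup.normalizer ((P : Subgroup N) : Set N) := by
          intro x hx
          rw [hO, Subgroup.mem_subgroupOf] at hx
          have hcom : ∀ y : N, y ∈ (P : Subgroup N) → x * y * x⁻¹ = y := by
            intro y hy
            obtain ⟨k, hk⟩ := P.2 ⟨y, hy⟩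
            have hk' : (y : H) ^ l ^ k = 1 := by
              have h1 := congrArg (Subtype.val) hk
              have h2 := congrArg (Subtype.val) h1
              simpa using h2
            have h3 := coprime_centralises hyp hp (Nat.card O) O rfl hOn hOJ hOp (y : H)
              (hNJ y.2) (l ^ k) (Nat.Coprime.pow_left k ((Nat.coprime_primes hs hp).2
                (Ne.symm hpl))) hk' (x : H) hx
            apply Subtype.ext
            change (x : H) * (y : H) * (x : H)⁻¹ = (y : H)
            have h4 : (y : H) * (x : H) = (x : H) * (y : H) := by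
              calc (y : H) * (x : H) = ((y : H) * (x : H) * (y : H)⁻¹) * (y : H) := by group
                _ = (x : H) * (y : H) := by rw [h3]
            rw [← h4]; group
          rw [Subgroup.mem_normalizer_iff]
          intro y
          constructor
          · intro hy
            rw [hcom y hy]; exact hy
          · intro hy
            have h5 := hcom _ hy
            have h6 : y = x * y * x⁻¹ := by
              have h7 : x * (x * y * x⁻¹) * x⁻¹ = x * y * x⁻¹ := h5
              have h8 : x * y * x⁻¹ = y := by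
                have := congrArg (fun z => x⁻¹ * z * x) h7
                simpa [mul_assoc] using this
              exact h8.symm
            rw [h6]; exact hy
        exact Q.not_dvd_index (hdvd.trans (Subgroup.index_dvd_of_le hle))
    · obtain ⟨O, hOn, -, -, hO⟩ := key l hl.out hls P
      rw [hO]
      exact hOn.subgroupOf N

end

theorem pf_i3b : T_I3b := by
  intro H _ _ J hJ hsol hyp
  exact main hsol hyp _ J rfl hJ le_rfl

end Pool.Agent.H74.NY.I3b
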